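import Pool.Agent.W_MP_b45167_pr.Reduction

/-!
# Entropy growth of i.i.d. sums in torsion-free groups
-/

namespace Pool.Agent.Results.MP_b45167_pr.EntropyGrowth

open Pool.Agent.W_MP_b45167_pr
open scoped ENNReal NNReal

universe u

/-- For every `n ≥ 2` and `ε > 0` there is `C` such that for every torsion-free abelian group `G`
and every discrete law `p` on `G` with `C ≤ H(p) < ∞`, the laws of the i.i.d. sums satisfy
`H(Sₙ) ≥ H(Sₙ₋₁) + ½ log₂ (n / (n - 1)) - ε`, all entropies being finite. -/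
theorem result (n : ℕ) (hn : 2 ≤ n) (ε : ℝ) (hε : 0 < ε) :
    ∃ C : ℝ≥0, ∀ (G : Type u) [AddCommGroup G] [IsAddTorsionFree G] (p : PMF G),
      (C : ℝ≥0∞) ≤ entropy p → entropy p < ⊤ →
        entropy (sumLaw p n) < ⊤ ∧
        entropy (sumLaw p (n - 1)) +
            ENNReal.ofReal (1 / 2 * Real.logb 2 ((n : ℝ) / ((n : ℝ) - 1))) ≤
          entropy (sumLaw p n) + ENNReal.ofReal ε :=
  main n hn ε hε

end Pool.Agent.Results.MP_b45167_pr.EntropyGrowth
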